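import Pool.Agent.Helper46.RO.Base

/-!
# One step of pushing (packet RO-P2)
-/

namespace Pool.Agent.Helper10.RO

open Pool.Agent.Helper46.RO

universe u

/-- The dot product of integer vectors. -/
def dot {n : ℕ} (a b : Fin n → ℤ) : ℤ := ∑ i, a i * b i

theorem nrm_add {n : ℕ} (a b : Fin n → ℤ) : nrm (a + b) = nrm a + 2 * dot a b + nrm b := by
  unfold nrm dot
  rw [Finset.mul_sum, ← Finset.sum_add_distrib, ← Finset.sum_add_distrib]
  refine Finset.sum_congr rfl fun i _ => ?_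
  simp only [Pi.add_apply]
  ring

theorem nrm_nonneg {n : ℕ} (a : Fin n → ℤ) : 0 ≤ nrm a :=
  Finset.sum_nonneg fun i _ => sq_nonneg (a i)

theorem dot_add_left {n : ℕ} (a b c : Fin n → ℤ) : dot (a + b) c = dot a c + dot b c := by
  unfold dot
  rw [← Finset.sum_add_distrib]
  refine Finset.sum_congr rfl fun i _ => ?_
  simp only [Pi.add_apply]
  ring

theorem two_dot_le {n : ℕ} (a b : Fin n → ℤ) : 2 * dot a b ≤ nrm a + nrm b := by
  unfold nrm dot
  rw [Finset.mul_sum, ← Finset.sum_add_distrib]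
  refine Finset.sum_le_sum fun i _ => ?_
  nlinarith [sq_nonneg (a i - b i)]

theorem hom_pow {L : Type u} [Group L] {n : ℕ} {π : L → Fin n → ℤ} (hπ : IsHomZ π) (a : L) (i : ℕ) :
    π (a ^ i) = fun j => (i : ℤ) * π a j := by
  induction i with
  | zero =>
    have h := hπ 1 1
    rw [mul_one] at h
    have h0 : π 1 = 0 := left_eq_add.1 h
    rw [pow_zero, h0]
    funext j
    simp
  | succ i ih =>
    rw [pow_succ, hπ, ih]
    funext j
    simp only [Pi.add_apply]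
    push_cast
    ring

theorem dot_smul_right {n : ℕ} (a b : Fin n → ℤ) (c : ℤ) :
    dot a (fun j => c * b j) = c * dot a b := by
  unfold dot
  rw [Finset.mul_sum]
  refine Finset.sum_congr rfl fun i _ => ?_
  ring

theorem nrm_smul {n : ℕ} (b : Fin n → ℤ) (c : ℤ) : nrm (fun j => c * b j) = c ^ 2 * nrm b := by
  unfold nrm
  rw [Finset.mul_sum]
  refine Finset.sum_congr rfl fun i _ => ?_
  ring

/-- The character of the direction towards the origin. -/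
theorem chr_eq {L : Type u} {n : ℕ} (π : L → Fin n → ℤ) (k v : L) (r : ℝ) :
    chr π (fun j => -((π k j : ℤ) : ℝ) / r) v = -((dot (π k) (π v) : ℤ) : ℝ) / r := by
  unfold chr dot
  push_cast
  rw [← Finset.sum_neg_distrib, Finset.sum_div]
  refine Finset.sum_congr rfl fun i _ => ?_
  ring

/-- The property of the vertex below `k`. -/
def Low {L : Type u} [Group L] (X : Finset L) {n : ℕ} (π : L → Fin n → ℤ) (K : ℤ) (k d : L) :
    Prop :=
  (∀ x ∈ X, nrm (π (k * x)) ≤ K → Conn X {k | nrm (π k) ≤ K} d (k * x)) ∧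
  ∃ x₀ ∈ X, ∀ x ∈ X, nrm (π (k * x)) ≤ K + 1 → nrm (π (k * x * x₀)) ≤ K ∧
    Conn X {k | nrm (π k) ≤ K} d (k * x * x₀)

theorem exists_low {L : Type u} [Group L] (X : Finset L) {n : ℕ} (π : L → Fin n → ℤ)
    (hX : SymGen X) (hπ : IsHomZ π) (𝒲 : Finset (L × ℕ × Finset L)) (δ : ℝ) (hδ : 0 < δ)
    (hU : ∀ w : Fin n → ℝ, ∑ i, w i ^ 2 = 1 → ∃ W ∈ 𝒲, Good X π w δ W) (M : ℕ)
    (hM1 : ∀ x ∈ X, nrm (π x) ≤ M) (hM2 : ∀ W ∈ 𝒲, W.2.1 ≤ M)
    (hM3 : ∀ W ∈ 𝒲, ∀ v ∈ W.2.2, nrm (π v) ≤ M) (K : ℤ) (hK : 0 ≤ K)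
    (hr : (M : ℝ) ^ 2 + 2 * M + 1 ≤ 2 * Real.sqrt (K + 1) * δ) (k : L) (hk : nrm (π k) = K + 1) :
    ∃ d, Low X π K k d := by
  set r : ℝ := Real.sqrt (K + 1) with hrdef
  have hK1 : (0 : ℝ) < (K : ℝ) + 1 := by
    have : (0 : ℝ) ≤ (K : ℝ) := by exact_mod_cast hK
    linarith
  have hr0 : 0 < r := Real.sqrt_pos.2 hK1
  have hr2 : r ^ 2 = (K : ℝ) + 1 := Real.sq_sqrt hK1.le
  have hM0 : (0 : ℝ) ≤ (M : ℝ) := Nat.cast_nonneg _
  obtain ⟨⟨x₀, m, F⟩, hW, hG⟩ := hU (fun j => -((π k j : ℤ) : ℝ) / r) (by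
    have h1 : ∀ i, (-((π k i : ℤ) : ℝ) / r) ^ 2 = ((π k i : ℤ) : ℝ) ^ 2 / r ^ 2 := by
      intro i
      rw [div_pow, neg_sq]
    simp only [h1]
    rw [← Finset.sum_div, hr2]
    have h2 : (∑ i, ((π k i : ℤ) : ℝ) ^ 2) = ((nrm (π k) : ℤ) : ℝ) := by
      unfold nrm
      push_cast
      rfl
    rw [h2, hk]
    push_cast
    exact div_self hK1.ne')
  obtain ⟨hx₀, hδ0, hpath⟩ := hG
  have hm : m ≤ M := hM2 _ hW
  have hF : ∀ v ∈ F, nrm (π v) ≤ M := hM3 _ hW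
  simp only [chr_eq] at hδ0 hpath
  -- inner products
  have hdot : ∀ v : L, δ ≤ -((dot (π k) (π v) : ℤ) : ℝ) / r →
      ((dot (π k) (π v) : ℤ) : ℝ) ≤ -(r * δ) := by
    intro v hv
    rw [le_div_iff₀ hr0] at hv
    linarith
  have hdx : ((dot (π k) (π x₀) : ℤ) : ℝ) ≤ -(r * δ) := hdot _ hδ0
  -- fact (a)
  have ha : ∀ v ∈ F, δ ≤ -((dot (π k) (π v) : ℤ) : ℝ) / r → nrm (π (k * v)) ≤ K := by
    intro v hv hv2
    have h1 := hdot v hv2
    have h2 : ((nrm (π v) : ℤ) : ℝ) ≤ M := by exact_mod_cast hF v hv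
    have h3 : ((nrm (π (k * v)) : ℤ) : ℝ) =
        (K : ℝ) + 1 + 2 * ((dot (π k) (π v) : ℤ) : ℝ) + ((nrm (π v) : ℤ) : ℝ) := by
      rw [hπ, nrm_add, hk]
      push_cast
      ring
    have h4 : ((nrm (π (k * v)) : ℤ) : ℝ) ≤ (K : ℝ) := by
      rw [h3]
      nlinarith
    exact_mod_cast h4
  -- fact (b)
  have hb : ∀ x ∈ X, nrm (π (k * x)) ≤ K + 1 → ∀ i : ℕ, 1 ≤ i → i ≤ M →
      nrm (π (k * x * x₀ ^ i)) ≤ K := by
    intro x hx hq i hi1 hi2
    have h1 : 2 * dot (π x) (π x₀) ≤ (M : ℤ) + M :=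
      (two_dot_le _ _).trans (add_le_add (hM1 x hx) (hM1 x₀ hx₀))
    have h1' : ((dot (π x) (π x₀) : ℤ) : ℝ) ≤ M := by
      have : (2 : ℝ) * ((dot (π x) (π x₀) : ℤ) : ℝ) ≤ (M : ℝ) + M := by exact_mod_cast h1
      linarith
    have h2 : ((dot (π (k * x)) (π x₀) : ℤ) : ℝ) ≤ -(r * δ) + M := by
      rw [hπ, dot_add_left]
      push_cast
      linarith
    have h3 : ((nrm (π (k * x * x₀ ^ i)) : ℤ) : ℝ) = ((nrm (π (k * x)) : ℤ) : ℝ) +
        2 * ((i : ℝ) * ((dot (π (k * x)) (π x₀) : ℤ) : ℝ)) +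
          (i : ℝ) ^ 2 * ((nrm (π x₀) : ℤ) : ℝ) := by
      rw [hπ (k * x) (x₀ ^ i), nrm_add, hom_pow hπ, dot_smul_right, nrm_smul]
      push_cast
      ring
    have h4 : ((nrm (π x₀) : ℤ) : ℝ) ≤ M := by exact_mod_cast hM1 x₀ hx₀
    have h5 : ((nrm (π (k * x)) : ℤ) : ℝ) ≤ (K : ℝ) + 1 := by exact_mod_cast hq
    have hi1' : (1 : ℝ) ≤ (i : ℝ) := by exact_mod_cast hi1
    have hi2' : (i : ℝ) ≤ (M : ℝ) := by exact_mod_cast hi2
    have h6 : (i : ℝ) * ((dot (π (k * x)) (π x₀) : ℤ) : ℝ) ≤ (i : ℝ) * (-(r * δ) + M) :=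
      mul_le_mul_of_nonneg_left h2 (by linarith)
    have h7 : (i : ℝ) ^ 2 * ((nrm (π x₀) : ℤ) : ℝ) ≤ (i : ℝ) ^ 2 * M :=
      mul_le_mul_of_nonneg_left h4 (sq_nonneg _)
    have h8 : (i : ℝ) ^ 2 * M ≤ (i : ℝ) * (M : ℝ) ^ 2 := by
      have : (i : ℝ) * ((i : ℝ) * M) ≤ (i : ℝ) * ((M : ℝ) * M) :=
        mul_le_mul_of_nonneg_left (mul_le_mul_of_nonneg_right hi2' hM0) (by linarith)
      nlinarith
    have h9 : (i : ℝ) * ((M : ℝ) ^ 2 + 2 * M + 1) ≤ (i : ℝ) * (2 * r * δ) :=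
      mul_le_mul_of_nonneg_left hr (by linarith)
    have h10 : ((nrm (π (k * x * x₀ ^ i)) : ℤ) : ℝ) ≤ (K : ℝ) := by
      rw [h3]
      nlinarith
    exact_mod_cast h10
  -- the exponent is positive
  have hx1 : x₀ ≠ 1 := by
    rintro rfl
    have h0 : π (1 : L) = 0 := by
      have h := hπ 1 1
      rw [mul_one] at h
      exact left_eq_add.1 h
    rw [h0] at hdx
    have : dot (π k) (0 : Fin n → ℤ) = 0 := by
      unfold dot
      simp
    rw [this] at hdx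
    push_cast at hdx
    have : 0 < r * δ := mul_pos hr0 hδ
    linarith
  have hm1 : 1 ≤ m := by
    by_contra hm0
    have hm0' : m = 0 := by omega
    have hp := hpath x₀ hx₀
    rw [hm0', pow_zero, mul_one] at hp
    rcases Relation.ReflTransGen.cases_head hp with h | ⟨c, hc, _⟩
    · exact hx1 h.symm
    · have h1 := hc.1.2
      have h0 : π (1 : L) = 0 := by
        have h := hπ 1 1
        rw [mul_one] at h
        exact left_eq_add.1 h
      rw [h0] at h1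
      have h2 : dot (π k) (0 : Fin n → ℤ) = 0 := by
        unfold dot
        simp
      rw [h2] at h1
      push_cast at h1
      have h3 := le_max_left (0 : ℝ) (-((dot (π k) (π x₀) : ℤ) : ℝ) / r)
      rw [neg_zero, zero_div] at h1
      linarith
  -- (A)
  have hA : ∀ x ∈ X, Conn X {k | nrm (π k) ≤ K} (k * x₀ ^ m) (k * x * x₀ ^ m) := by
    intro x hx
    have hp := hpath x hx
    rw [mul_assoc k x]
    refine hp.translate k ?_
    rintro v ⟨hvF, hv⟩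
    refine ha v hvF ?_
    have := le_max_left (0 : ℝ) (-((dot (π k) (π x) : ℤ) : ℝ) / r)
    linarith
  -- (B)
  have hB : ∀ x ∈ X, nrm (π (k * x)) ≤ K + 1 → ∀ i : ℕ, 1 ≤ i → i ≤ M →
      Conn X {k | nrm (π k) ≤ K} (k * x * x₀ ^ i) (k * x * x₀) := by
    intro x hx hq i hi1
    induction i, hi1 using Nat.le_induction with
    | base =>
      intro _
      rw [pow_one]
      exact Conn.refl _
    | succ i hi1 ih =>
      intro hi2
      refine Conn.trans ?_ (ih (by omega))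
      refine Conn.symm hX ?_
      have e : k * x * x₀ ^ (i + 1) = k * x * x₀ ^ i * x₀ := by
        rw [pow_succ, mul_assoc (k * x)]
      rw [e]
      refine Conn.step hx₀ ?_ ?_
      · exact hb x hx hq i hi1 (by omega)
      · rw [← e]
        exact hb x hx hq (i + 1) (by omega) hi2
  refine ⟨k * x₀ ^ m, ?_, x₀, hx₀, ?_⟩
  · intro x hx hq
    refine Conn.trans (hA x hx) (Conn.trans (hB x hx (by omega) m hm1 hm) ?_)
    refine Conn.symm hX ?_
    refine Conn.step hx₀ hq ?_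
    have := hb x hx (by omega) 1 le_rfl (hm1.trans hm)
    rwa [pow_one] at this
  · intro x hx hq
    refine ⟨?_, Conn.trans (hA x hx) (hB x hx hq m hm1 hm)⟩
    have := hb x hx hq 1 le_rfl (hm1.trans hm)
    rwa [pow_one] at this

theorem P2 : GoalP2.{u} := by
  intro L _ X n π hX hπ hU
  obtain ⟨𝒲, δ, hδ, hU⟩ := hU
  -- a common bound
  obtain ⟨M, hM1, hM2, hM3⟩ : ∃ M : ℕ, (∀ x ∈ X, nrm (π x) ≤ M) ∧ (∀ W ∈ 𝒲, W.2.1 ≤ M) ∧
      (∀ W ∈ 𝒲, ∀ v ∈ W.2.2, nrm (π v) ≤ M) := by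
    refine ⟨∑ x ∈ X, (nrm (π x)).toNat + (∑ W ∈ 𝒲, W.2.1 +
      ∑ W ∈ 𝒲, ∑ v ∈ W.2.2, (nrm (π v)).toNat), ?_, ?_, ?_⟩
    · intro x hx
      have h1 : (nrm (π x)).toNat ≤ ∑ x ∈ X, (nrm (π x)).toNat :=
        Finset.single_le_sum (f := fun x => (nrm (π x)).toNat) (fun _ _ => Nat.zero_le _) hx
      have h2 := Int.self_le_toNat (nrm (π x))
      omega
    · intro W hW
      have h1 : W.2.1 ≤ ∑ W ∈ 𝒲, W.2.1 :=
        Finset.single_le_sum (f := fun W : L × ℕ × Finset L => W.2.1)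
          (fun _ _ => Nat.zero_le _) hW
      omega
    · intro W hW v hv
      have h1 : ∑ v ∈ W.2.2, (nrm (π v)).toNat ≤ ∑ W ∈ 𝒲, ∑ v ∈ W.2.2, (nrm (π v)).toNat :=
        Finset.single_le_sum (f := fun W : L × ℕ × Finset L => ∑ v ∈ W.2.2, (nrm (π v)).toNat)
          (fun _ _ => Nat.zero_le _) hW
      have h3 : (nrm (π v)).toNat ≤ ∑ v ∈ W.2.2, (nrm (π v)).toNat :=
        Finset.single_le_sum (f := fun v => (nrm (π v)).toNat) (fun _ _ => Nat.zero_le _) hv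
      have h2 := Int.self_le_toNat (nrm (π v))
      omega
  set c : ℝ := ((M : ℝ) ^ 2 + 2 * M + 1) / (2 * δ) with hc
  have hc0 : 0 ≤ c := by positivity
  refine ⟨max 0 ⌈c ^ 2⌉, ?_⟩
  intro K hK
  have hK0 : 0 ≤ K := (le_max_left _ _).trans hK
  have hKc : c ^ 2 ≤ (K : ℝ) + 1 := by
    have h1 : ⌈c ^ 2⌉ ≤ K := (le_max_right _ _).trans hK
    have h2 : c ^ 2 ≤ ((⌈c ^ 2⌉ : ℤ) : ℝ) := Int.le_ceil _
    have h3 : ((⌈c ^ 2⌉ : ℤ) : ℝ) ≤ (K : ℝ) := by exact_mod_cast h1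
    linarith
  have hr : (M : ℝ) ^ 2 + 2 * M + 1 ≤ 2 * Real.sqrt (K + 1) * δ := by
    have h1 : c ≤ Real.sqrt (K + 1) := Real.le_sqrt_of_sq_le hKc
    rw [hc, div_le_iff₀ (by positivity)] at h1
    linarith
  have hlow : ∀ k, nrm (π k) = K + 1 → ∃ d, Low X π K k d := fun k hk =>
    exists_low X π hX hπ 𝒲 δ hδ hU M hM1 hM2 hM3 K hK0 hr k hk
  intro g h hg hh hgh
  have key : ∀ h, Conn X {k | nrm (π k) ≤ K + 1} g h →
      (nrm (π h) ≤ K → Conn X {k | nrm (π k) ≤ K} g h) ∧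
      (nrm (π h) = K + 1 → ∀ d, Low X π K h d → Conn X {k | nrm (π k) ≤ K} g d) := by
    intro h hgh
    induction hgh with
    | refl =>
      refine ⟨fun _ => Conn.refl _, fun h1 => ?_⟩
      omega
    | @tail b c' _ hbc ih =>
      obtain ⟨hb, hc', hx⟩ := hbc
      have hb' : nrm (π b) ≤ K + 1 := hb
      have hc'' : nrm (π c') ≤ K + 1 := hc'
      have hx' : c'⁻¹ * b ∈ X := by
        have := hX.1 _ hx
        rwa [mul_inv_rev, inv_inv] at this
      have e1 : b * (b⁻¹ * c') = c' := mul_inv_cancel_left _ _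
      have e2 : c' * (c'⁻¹ * b) = b := mul_inv_cancel_left _ _
      constructor
      · intro hcK
        by_cases hbK : nrm (π b) ≤ K
        · exact Conn.trans (ih.1 hbK) (Conn.single hbK hcK hx)
        · obtain ⟨d, hd⟩ := hlow b (by omega)
          refine Conn.trans (ih.2 (by omega) d hd) ?_
          have := hd.1 _ hx (by rw [e1]; exact hcK)
          rwa [e1] at this
      · intro hcK d hd
        by_cases hbK : nrm (π b) ≤ K
        · refine Conn.trans (ih.1 hbK) (Conn.symm hX ?_)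
          have := hd.1 _ hx' (by rw [e2]; exact hbK)
          rwa [e2] at this
        · obtain ⟨d', hd'⟩ := hlow b (by omega)
          refine Conn.trans (ih.2 (by omega) d' hd') ?_
          obtain ⟨x₀, hx₀, hD⟩ := hd'.2
          have h1 := hD _ hx (by rw [e1]; omega)
          rw [e1] at h1
          exact Conn.trans h1.2 (Conn.symm hX (hd.1 _ hx₀ h1.1))
  exact (key h hgh).1 hh

end Pool.Agent.Helper10.RO
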